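import Pool.Agent.helper55.FPZ.Spec

set_option autoImplicit false

namespace Pool.Agent.FPZ

open Matrix Polynomial Pool.Agent.PL Pool.Agent.X4

theorem EB_zero {F : Type} [Field F] {N : ℕ} (A : Set (Fin N → F)) (i a b : Fin N)
    (u : Matrix (Fin N) (Fin N) F) (hu : u ∈ CD A) (hb : Bl A i b) (ha : ¬ Bl A i a) : u a b = 0 := by
  unfold Bl at ha
  push Not at ha
  obtain ⟨d, hd, hne⟩ := ha
  have h1 : u * diagonal d = diagonal d * u := hu d hd
  have h2 := congrFun (congrFun h1 a) b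
  rw [Matrix.mul_diagonal, Matrix.diagonal_mul] at h2
  have h3 : d i = d b := hb d hd
  have h4 : u a b * (d i - d a) = 0 := by
    rw [mul_sub, h3, h2]; ring
  rcases mul_eq_zero.mp h4 with h | h
  · exact h
  · exact absurd (sub_eq_zero.mp h) hne

theorem EB_mem {F : Type} [Field F] {N : ℕ} (A : Set (Fin N → F)) (i j : Fin N) :
    j ∈ blk A i ↔ Bl A i j := by
  unfold blk
  simp

theorem EB (hDE1 : DE1_stmt) : EB_stmt := by
  intro F _ N A i
  classical
  let e : Fin (blk A i).card → Fin N := fun k => ((blk A i).equivFin.symm k).1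
  have hinj : Function.Injective e := by
    intro a b hab
    exact (blk A i).equivFin.symm.injective (Subtype.ext hab)
  have hmem : ∀ k, Bl A i (e k) := by
    intro k
    exact (EB_mem A i _).mp ((blk A i).equivFin.symm k).2
  obtain ⟨δ, h0, h⟩ := hDE1 F N (blk A i).card e hinj
  have hcond : ∀ u ∈ CD A, ∀ j, (∀ k, j ≠ e k) → ∀ l, u j (e l) = 0 := by
    intro u hu j hj l
    refine EB_zero A i j (e l) u hu (hmem l) ?_
    intro hB
    have hjm : j ∈ blk A i := (EB_mem A i j).mpr hB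
    apply hj ((blk A i).equivFin ⟨j, hjm⟩)
    show j = ((blk A i).equivFin.symm ((blk A i).equivFin ⟨j, hjm⟩)).1
    rw [Equiv.symm_apply_apply]
  refine ⟨δ, ⟨h0, ?_, ?_⟩⟩
  · intro u hu
    exact ⟨_, (h u (hcond u hu)).1⟩
  · intro Y hY
    rw [(h Y (hcond Y hY)).2]
    have hs : (∑ k, Y (e k) (e k)) = ∑ j ∈ blk A i, Y j j := by
      rw [← Finset.sum_coe_sort (blk A i) (fun j => Y j j)]
      exact Fintype.sum_equiv (blk A i).equivFin.symm _ _ (fun k => rfl)
    rw [hs]

end Pool.Agent.FPZ
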